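import Pool.Agent.H53.MW.Targets
import Pool.Agent.H5.FLX.CHX

/-!
MP_c62aed_lc, permanent lines and work memory: row MGF (the exponential moment).
-/

set_option autoImplicit false

namespace Pool.Agent.H5.MW

open Finset
open Pool.Agent.H53.MW
open Pool.Agent.H53.MC (U)
open Pool.Agent.H15.FLX (Signs idx FG)
open Pool.Agent.H5.FLX (chx_card chx_N)

theorem mgf_fiber {n k : ℕ} (g : Fin k → Fin n) (hg : Function.Injective g) (s : Fin k → Bool) :
    (((univ.filter fun y : Fin n → Bool => (fun i => !(y (g i))) = s).card : ℕ) : ℝ) =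
      2 ^ n / 2 ^ k := by
  classical
  have hA : (univ.image g).card = k := by
    rw [card_image_of_injective _ hg, card_univ, Fintype.card_fin]
  have h1 : (univ.filter fun y : Fin n → Bool => (fun i => !(y (g i))) = s) =
      univ.filter fun y : Fin n → Bool => ∀ v ∈ univ.image g,
        y v = !(Function.extend g s (fun _ => false) v) := by
    ext y
    rw [mem_filter, mem_filter]
    constructor
    · rintro ⟨-, h⟩
      refine ⟨mem_univ _, fun v hv => ?_⟩
      obtain ⟨i, -, rfl⟩ := mem_image.1 hv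
      rw [hg.extend_apply, ← h]
      simp
    · rintro ⟨-, h⟩
      refine ⟨mem_univ _, ?_⟩
      funext i
      rw [h (g i) (mem_image_of_mem _ (mem_univ i)), hg.extend_apply]
      simp
  have h2 := chx_card (univ.image g) hA (Function.extend g s (fun _ => false))
  rw [← h1] at h2
  rw [eq_div_iff (by positivity)]
  exact_mod_cast h2

theorem mgf_one {n k M : ℕ} (g : Fin k → Fin n) (hg : Function.Injective g) (j : Fin M)
    (W : U M k → ℝ) (hW : ∀ c, 0 ≤ W c ∧ W c ≤ 1) :
    ∑ y : Fin n → Bool, (2 : ℝ) ^ (W (j, fun i => !(y (g i)))) ≤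
      2 ^ n * Real.exp ((∑ s : Fin k → Bool, W (j, s)) / 2 ^ k) := by
  classical
  have h1 : ∀ y : Fin n → Bool, (2 : ℝ) ^ (W (j, fun i => !(y (g i)))) ≤
      1 + W (j, fun i => !(y (g i))) := by
    intro y
    have h2 := rpow_one_add_le_one_add_mul_self (s := 1) (by norm_num)
      (hW (j, fun i => !(y (g i)))).1 (hW (j, fun i => !(y (g i)))).2
    have h3 : (1 : ℝ) + 1 = 2 := by norm_num
    rw [h3, mul_one] at h2
    exact h2
  have h4 : ∑ y : Fin n → Bool, W (j, fun i => !(y (g i))) =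
      2 ^ n / 2 ^ k * ∑ s : Fin k → Bool, W (j, s) := by
    rw [← Finset.sum_fiberwise univ (fun y : Fin n → Bool => fun i => !(y (g i))), Finset.mul_sum]
    refine Finset.sum_congr rfl fun s _ => ?_
    rw [← mgf_fiber g hg s, ← nsmul_eq_mul, ← Finset.sum_const]
    refine Finset.sum_congr rfl fun y hy => ?_
    rw [(mem_filter.1 hy).2]
  have h5 := Real.add_one_le_exp ((∑ s : Fin k → Bool, W (j, s)) / 2 ^ k)
  have h6 : ∑ y : Fin n → Bool, (1 + W (j, fun i => !(y (g i)))) =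
      2 ^ n * ((∑ s : Fin k → Bool, W (j, s)) / 2 ^ k + 1) := by
    rw [Finset.sum_add_distrib, h4, Finset.sum_const, nsmul_eq_mul, card_univ]
    simp
    ring
  calc ∑ y : Fin n → Bool, (2 : ℝ) ^ (W (j, fun i => !(y (g i))))
      ≤ ∑ y : Fin n → Bool, (1 + W (j, fun i => !(y (g i)))) := Finset.sum_le_sum fun y _ => h1 y
    _ = 2 ^ n * ((∑ s : Fin k → Bool, W (j, s)) / 2 ^ k + 1) := h6
    _ ≤ _ := mul_le_mul_of_nonneg_left h5 (by positivity)

theorem pf_MGF : T_MGF := by
  classical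
  intro n k M μ g hg W S V hW hS
  -- the sum of the exponentials
  have h1 : ∑ σ : Signs n M μ, (2 : ℝ) ^ (∑ l, W (FG g σ l)) =
      ∏ q : Fin M × Fin μ, ∑ y : Fin n → Bool, (2 : ℝ) ^ (W (q.1, fun i => !(y (g q.1 i)))) := by
    rw [Finset.prod_univ_sum, Fintype.piFinset_univ]
    refine Finset.sum_congr rfl fun σ _ => ?_
    rw [Real.rpow_sum_of_pos (by norm_num)]
    exact Equiv.prod_comp finProdFinEquiv.symm
      (fun q : Fin M × Fin μ => (2 : ℝ) ^ (W (q.1, fun i => !(σ q (g q.1 i)))))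
  have h2 : ∏ q : Fin M × Fin μ, ∑ y : Fin n → Bool, (2 : ℝ) ^ (W (q.1, fun i => !(y (g q.1 i)))) ≤
      ∏ q : Fin M × Fin μ, (2 ^ n * Real.exp ((∑ s : Fin k → Bool, W (q.1, s)) / 2 ^ k)) :=
    Finset.prod_le_prod (fun q _ => Finset.sum_nonneg fun y _ => by positivity)
      fun q _ => mgf_one (g q.1) (hg q.1) q.1 W hW
  have h3 : ∏ q : Fin M × Fin μ,
      ((2 : ℝ) ^ n * Real.exp ((∑ s : Fin k → Bool, W (q.1, s)) / 2 ^ k)) =
      (2 ^ n) ^ (M * μ) * Real.exp (μ * (∑ c, W c) / 2 ^ k) := by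
    rw [Finset.prod_mul_distrib, Finset.prod_const, card_univ, Fintype.card_prod,
      Fintype.card_fin, Fintype.card_fin, ← Real.exp_sum]
    congr 2
    have h4 : ∑ c : U M k, W c = ∑ j : Fin M, ∑ s : Fin k → Bool, W (j, s) :=
      Fintype.sum_prod_type _
    have h5 : ∑ q : Fin M × Fin μ, (∑ s : Fin k → Bool, W (q.1, s)) / 2 ^ k =
        ∑ j : Fin M, ∑ _i : Fin μ, (∑ s : Fin k → Bool, W (j, s)) / 2 ^ k :=
      Fintype.sum_prod_type _
    rw [h5, h4]
    simp only [Finset.sum_const, card_univ, Fintype.card_fin, nsmul_eq_mul]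
    rw [← Finset.mul_sum, ← Finset.sum_div, mul_div_assoc]
  have h6 : Real.exp (μ * (∑ c, W c) / 2 ^ k) ≤ Real.exp (μ * S / 2 ^ k) := by
    apply Real.exp_le_exp.2
    exact div_le_div_of_nonneg_right (mul_le_mul_of_nonneg_left hS (Nat.cast_nonneg _))
      (by positivity)
  -- Markov
  have h7 : (Nat.card {σ : Signs n M μ // V ≤ ∑ l, W (FG g σ l)} : ℝ) * 2 ^ V ≤
      ∑ σ : Signs n M μ, (2 : ℝ) ^ (∑ l, W (FG g σ l)) := by
    rw [Nat.card_eq_fintype_card, Fintype.card_subtype, ← nsmul_eq_mul]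
    refine (Finset.card_nsmul_le_sum (univ.filter fun σ : Signs n M μ => V ≤ ∑ l, W (FG g σ l))
      (fun σ => (2 : ℝ) ^ (∑ l, W (FG g σ l))) _ fun σ hσ => ?_).trans
      (Finset.sum_le_sum_of_subset_of_nonneg (Finset.subset_univ _) fun σ _ _ => by positivity)
    exact Real.rpow_le_rpow_of_exponent_le (by norm_num) (mem_filter.1 hσ).2
  refine h7.trans ?_
  rw [h1]
  refine h2.trans ?_
  rw [h3, chx_N, mul_comm]
  exact mul_le_mul_of_nonneg_right h6 (by positivity)

end Pool.Agent.H5.MW
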